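import Pool.Agent.R409.CT.Fin
import Pool.Agent.W343.BSD.Stmt

/-!
# The order of vanishing of the L-functions of abelian varieties over function fields in the constant
twists of a cyclic extension

Let `K` be the function field of a curve over the field with `q` elements, `N = ℓ ^ n` a power of a prime
`ℓ` which does not divide `q`, `L` a cyclic extension of `K` of degree `N` with the same field of
constants, and `χ` a character of order `N` with the field `L`. Over the constant extension of `K` of
degree `N` the field `L` becomes isomorphic to `N` cyclic extensions `L_c` of `K`, `0 ≤ c < N`, the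
constant twists of `L`, with the characters `χ ψ ^ c`, where `ψ` is the character with the values
`ζ ^ deg v` at the Frobenius elements of all places `v`. The genus, the ramification and all geometric
invariants of the `L_c` are the same.

Let `A` be an abelian variety over `K`. The theorem says that the order of vanishing at the central point
of the L-function of `A` over `L_c` is the same as over `K` for all `c` with at most
`∑ ℓ ^ m M_m` exceptions (`0 ≤ m < n`), where `M_m` is the order of vanishing of `L(A/K, T)` at `1/q` modulo
`ℓ`, plus the orders of vanishing modulo `ℓ` of its Euler factors at the places where `χ ^ (ℓ ^ m)` is ramified.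
The ramification of `L` over `K` is arbitrary. It is proved with the congruences modulo a prime over
`ℓ` between the L-function of `A` and those of its twists by the powers of `χ ψ ^ c`: the `N` twists by `c`
move the central point through all points `ξ / q`, `ξ ^ N = 1`, which are the same modulo `ℓ`.
-/

set_option autoImplicit false

open Polynomial FF
open Pool.Agent.W343.BSD (IsCurveField eulerProd)

namespace Pool.Agent.Results.MP_1d384c_nt.ConstantTwists

section defs

variable {k K : Type} [Field k] [Field K] [Algebra k K]

/-- The degree of a place: the residue field has `q ^ deg v` elements, where `q` is the number of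
elements of `k`. -/
noncomputable def deg (v : Place k K) : ℕ :=
  Nat.log (Nat.card k) (Nat.card (IsLocalRing.ResidueField v.O))

/-- `Λ(T) = ∏ P_v(T ^ deg v)⁻¹`, the product over the places `v` of `K`. -/
def IsProduct {A : Type} [CommRing A] (P : Place k K → A[X]) (Λ : PowerSeries A) : Prop :=
  Λ * eulerProd (fun v : Place k K => deg v)
    (fun v => ((expand A (deg v) (P v) : A[X]) : PowerSeries A)) = 1

/-- `P = ∏ (1 - α_i T)` and `Q = ∏ (1 - α_i ^ f T)` for complex numbers `α_i`. -/
def IsPower (f : ℕ) (P Q : ℤ[X]) : Prop :=
  ∃ (n : ℕ) (α : Fin n → ℂ), P.map (Int.castRingHom ℂ) = ∏ i, (1 - C (α i) * X) ∧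
    Q.map (Int.castRingHom ℂ) = ∏ i, (1 - C (α i ^ f) * X)

/-- The multiplicity modulo `ℓ` of the zero `1 / q` of `A`. -/
noncomputable def mult (ℓ : ℕ) [Fact ℓ.Prime] (q : ℕ) (A : ℤ[X]) : ℕ :=
  (A.map (Int.castRingHom (ZMod ℓ))).rootMultiplicity ((q : ℕ) : ZMod ℓ)⁻¹

/-- The order of vanishing at `1 / q` of the rational function `Λ` is `r`. -/
def HasOrder (q : ℕ) (Λ : PowerSeries ℤ) (r : ℕ) : Prop :=
  ∃ U V : ℤ[X], V.coeff 0 = 1 ∧ Λ * (V : PowerSeries ℤ) = (U : PowerSeries ℤ) ∧
    (V.map (Int.castRingHom ℚ)).eval (q : ℚ)⁻¹ ≠ 0 ∧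
    (U.map (Int.castRingHom ℚ)).rootMultiplicity (q : ℚ)⁻¹ = r

/-- The numbers `e v` are possible ramification indices in a cyclic extension of degree `N`. -/
def IsRamification (N : ℕ) (e : Place k K → ℕ) : Prop :=
  (∀ v, e v ∣ N) ∧ {v | e v ≠ 1}.Finite

/-- The Euler factor at `v` of the twist by the `j`-th power of the character `χ` with ramification
indices `e v` and the values `ζ ^ φ v` at Frobenius: `χ ^ j` is unramified at `v` if `e v` divides `j`,
and the factor is `P_v(χ(v) ^ j T)` in this case, and one otherwise. -/
noncomputable def twist {A : Type} [CommRing A] (ζ : A) (e φ : Place k K → ℕ)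
    (P : Place k K → ℤ[X]) (j : ℕ) (v : Place k K) : A[X] :=
  if e v ∣ j then ((P v).map (Int.castRingHom A)).comp (C (ζ ^ (j * φ v)) * X) else 1

/-- The place `w` of `L` lies over the place `v` of `K`, with the ramification index `i`. -/
def LiesOver {L : Type} [Field L] [Algebra k L] [Algebra K L] (w : Place k L) (v : Place k K)
    (i : ℕ) : Prop :=
  0 < i ∧ ∀ f : K, w.ord (algebraMap K L f) = i * v.ord f

/-- `L` is the field cut out by the character `χ ψ ^ c`, where `χ` has the ramification indices `e v` and
the values `ζ ^ φ v` at Frobenius and `ψ` is the character of the constant extension, with the values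
`ζ ^ deg v`: a Galois extension of `K` of degree `N` with the field of constants `k` such that all places
of `L` over `v` have the ramification index `e v`, and their degree over `v` is the order of
`φ v + c deg v` modulo `N / e v`. -/
structure IsTwistField (N : ℕ) (e φ : Place k K → ℕ) (c : ℕ) (L : Type) [Field L] [Algebra k L]
    [Algebra K L] : Prop where
  curve : IsCurveField k L
  galois : IsGalois K L
  degree : Module.finrank K L = N
  ramification : ∀ (v : Place k K) (w : Place k L) (i : ℕ), LiesOver w v i → i = e v
  residue : ∀ (v : Place k K) (w : Place k L) (i : ℕ), LiesOver w v i →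
    deg w = deg v * (N / e v / Nat.gcd (N / e v) (φ v + c * deg v))

/-- The Euler factors `P' w` at the places `w` of `L` are those obtained from the Euler factors `P v`:
the reciprocal zeros of `P' w` are the powers of those of `P v` with the residue degree `f` of `w` over
`v` as exponent. -/
def IsBaseChange {L : Type} [Field L] [Algebra k L] [Algebra K L]
    (P : Place k K → ℤ[X]) (P' : Place k L → ℤ[X]) : Prop :=
  ∀ (v : Place k K) (w : Place k L) (i f : ℕ), LiesOver w v i → deg w = deg v * f →
    IsPower f (P v) (P' w)

/-- The number `M_m`: the multiplicity modulo `ℓ` of the zero `1 / q` of `U`, plus those of the Euler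
factors `P_v(T ^ deg v)` at the places `v` whose ramification index `e v` does not divide `ℓ ^ m`. -/
noncomputable def bound (ℓ : ℕ) [Fact ℓ.Prime] (m : ℕ) (U : ℤ[X]) (P : Place k K → ℤ[X])
    (e : Place k K → ℕ) : ℕ :=
  mult ℓ (Nat.card k) U +
    ∑ᶠ (v : Place k K) (_ : ¬ e v ∣ ℓ ^ m), mult ℓ (Nat.card k) (expand ℤ (deg v) (P v))

/-- `Λ V = U` and `V(0) = 1`, so that `Λ` is the rational function `U / V`. -/
def IsRational (Λ : PowerSeries ℤ) (U V : ℤ[X]) : Prop :=
  V.coeff 0 = 1 ∧ Λ * (V : PowerSeries ℤ) = (U : PowerSeries ℤ)

/-- The L-functions of the twists by `χ ^ j`, `0 < j < N`, are polynomials. -/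
def PolynomialTwists (N : ℕ) (ζ : ℂ) (e φ : Place k K → ℕ) (P : Place k K → ℤ[X]) : Prop :=
  ∀ j ∈ Finset.Ico 1 N, ∃ R : ℂ[X], IsProduct (twist ζ e φ P j) (R : PowerSeries ℂ)

/-- At most `B` of the numbers `g(c)`, `0 ≤ c < N`, are different from zero. -/
def FewNonzero (N : ℕ) (g : ℕ → ℕ) (B : ℕ) : Prop :=
  ((Finset.range N).filter fun c => g c ≠ 0).card ≤ B

/-- The mean value of the numbers `g(c)`, `0 ≤ c < N`, is at most `(1 - 1/ℓ) B`. -/
def MeanLe (N ℓ : ℕ) (g : ℕ → ℕ) (B : ℕ) : Prop :=
  ℓ * ∑ c ∈ Finset.range N, g c ≤ (ℓ - 1) * N * B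

/-- For every field `L` cut out by the character `χ ψ ^ c`, the L-function `Λ'` over `L` of the Euler
factors obtained from the `P_v` vanishes at `1/q` of order `r + s`, if `Λ` vanishes there of order
`r`. -/
def OrderIs (N : ℕ) (e φ : Place k K → ℕ) (P : Place k K → ℤ[X]) (Λ : PowerSeries ℤ)
    (c s : ℕ) : Prop :=
  ∀ (L : Type) [Field L] [Algebra k L] [Algebra K L] [IsScalarTower k K L],
    IsTwistField N e φ c L → ∀ (P' : Place k L → ℤ[X]) (Λ' : PowerSeries ℤ),
    IsBaseChange P P' → IsProduct P' Λ' →
      ∀ r : ℕ, HasOrder (Nat.card k) Λ r → HasOrder (Nat.card k) Λ' (r + s)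

end defs

section bridge

variable {k K : Type} [Field k] [Finite k] [Field K] [Algebra k K] [FF.IsFF k K]

theorem deg_eq (v : Place k K) : deg v = v.deg := Pool.Agent.W343.BSD.S.deg_eq v

theorem isProduct_iff {A : Type} [CommRing A] (P : Place k K → A[X]) (Λ : PowerSeries A) :
    IsProduct P Λ ↔ Pool.Agent.R409.CT.IsProduct P Λ := by
  unfold IsProduct Pool.Agent.R409.CT.IsProduct
  simp only [deg_eq]

end bridge

/-- Let `K` be the function field of a curve over the field `k` with `q` elements, and `P_v` any
integral polynomials with `P_v(0) = 1` for the places `v` of `K`, such that the product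
`Λ(T) = ∏ P_v(T ^ deg v)⁻¹` is a rational function `U / V` with integral polynomials, `V(0) = 1`. The main
example is an arbitrary abelian variety `A` over `K`, with the Euler factors
`P_v(T) = det (1 - Frob_v T)` on the invariants of inertia in `V_l(A)`, so that `Λ = L(A/K, T)`.

Let `N = ℓ ^ n` be a power of a prime which does not divide `q`, and let `e v` be the ramification indices
and `φ v` the Frobenius exponents of a cyclic extension of degree `N` with character `χ`. We assume
that the L-functions of the twists by `χ ^ j`, `0 < j < N`, with the Euler factors `twist ζ e φ P j v`,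
are polynomials: by Grothendieck this holds if `A` has no constant part over `L ⊗ k'` for the algebraic
closure `k'` of `k`; the Euler factors are the right ones if `A` has good or semistable reduction at the
ramified places, and for all `A` if `ℓ` is larger than `2 dim A + 1`.

Then there is a function `g` with the following properties.

* At most `∑ ℓ ^ m M_m` of the `N` numbers `g(c)`, `0 ≤ c < N`, are different from zero (the sum is over
  `0 ≤ m < n`, and `M_m` is `bound ℓ m U P e`).
* Their mean value is at most `(1 - 1/ℓ) ∑ M_m`.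
* For all `c` and every field `L_c` cut out by the character `χ ψ ^ c` (`IsTwistField`), the
  L-function of the Euler factors over `L_c` obtained from the `P_v` (`IsBaseChange`) vanishes
  at `1/q` of order `r + g(c)`, where `r` is the order of vanishing of `Λ` at `1/q`.

So for all `c` outside an explicitly bounded set the orders of vanishing of `L(A/L_c, T)` and
`L(A/K, T)` at `1/q` are equal. Since `rank A(K) ≤ rank A(L_c) ≤ ord L(A/L_c, T)` by Tate's inequality, the
conjecture of Birch and Swinnerton-Dyer for `A` over `K` implies the conjecture for `A` over `L_c`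
for these `c`, with `rank A(L_c) = rank A(K)`. For `n = 1` there are at most `M_0` exceptions among the `ℓ`
fields `L_c`; if `ℓ` is large and does not divide the number of points of the reduction of `A` at the
ramified places, this is the order of vanishing of `L(A/K, T)` at `1/q`. -/
theorem result (k K : Type) [Field k] [Finite k] [Field K] [Algebra k K] (hK : IsCurveField k K)
    (P : Place k K → ℤ[X]) (hP : ∀ v, (P v).coeff 0 = 1) (Λ : PowerSeries ℤ)
    (hΛ : IsProduct P Λ) (U V : ℤ[X]) (hUV : IsRational Λ U V) (ℓ n : ℕ) [Fact ℓ.Prime]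
    (hℓq : ¬ ℓ ∣ Nat.card k) (ζ : ℂ) (hζ : IsPrimitiveRoot ζ (ℓ ^ n)) (e φ : Place k K → ℕ)
    (he : IsRamification (ℓ ^ n) e) (hpoly : PolynomialTwists (ℓ ^ n) ζ e φ P) :
    ∃ g : ℕ → ℕ, FewNonzero (ℓ ^ n) g (∑ m ∈ Finset.range n, ℓ ^ m * bound ℓ m U P e) ∧
      MeanLe (ℓ ^ n) ℓ g (∑ m ∈ Finset.range n, bound ℓ m U P e) ∧
      ∀ c : ℕ, OrderIs (ℓ ^ n) e φ P Λ c (g c) := by
  have i0 : FF.IsFF k K := ⟨hK.essFiniteType, hK.trdeg_eq_one⟩
  obtain ⟨g, h1, h2, h3⟩ := Pool.Agent.R409.CT.twists_theorem hK P hP Λ
    ((isProduct_iff P Λ).1 hΛ) U V hUV.1 hUV.2 ℓ n hℓq ζ hζ e φ ⟨he.1, he.2⟩ (fun j hj => by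
      obtain ⟨R, hR⟩ := hpoly j hj
      exact ⟨R, (isProduct_iff _ _).1 hR⟩)
  have hb : ∀ m, bound ℓ m U P e = Pool.Agent.R409.CT.mult ℓ (Nat.card k) U +
      ∑ᶠ (v : Place k K) (_ : ¬ e v ∣ ℓ ^ m),
        Pool.Agent.R409.CT.mult ℓ (Nat.card k) (expand ℤ v.deg (P v)) := by
    intro m
    unfold bound
    simp only [deg_eq]
    rfl
  refine ⟨g, ?_, ?_, ?_⟩
  · unfold FewNonzero
    simp only [hb]
    exact h1
  · unfold MeanLe
    simp only [hb]
    exact h2
  · intro c L _ _ _ _ hL P' Λ' hbc hΛ' r hr
    have i1 : FF.IsFF k L := ⟨hL.curve.essFiniteType, hL.curve.trdeg_eq_one⟩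
    exact h3 c L
      { curve := hL.curve
        galois := hL.galois
        degree := hL.degree
        ramification := fun v w i hi => hL.ramification v w i hi
        residue := fun v w i hi => by
          have := hL.residue v w i hi
          simpa only [deg_eq] using this } P' Λ'
      (fun v w i f hi hf => hbc v w i f hi (by simpa only [deg_eq] using hf))
      ((isProduct_iff P' Λ').1 hΛ') r hr

end Pool.Agent.Results.MP_1d384c_nt.ConstantTwists
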