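import Pool.Agent.R409.RA.Loc

/-!
# A numerical form of the conjecture of Birch and Swinnerton-Dyer for abelian varieties over number
fields which is equivalent to its rank form

Let `A` be an abelian variety of dimension `g` over a number field `K`. Birch and Swinnerton-Dyer were
led to their conjecture by the growth of the products of the numbers `#A(k_v) / q_v ^ g` over the primes
`v` with `q_v ≤ T`. An asymptotic formula `C (log T) ^ ρ` for these products implies the Riemann
hypothesis for `L(A, s)` (Goldfeld for elliptic curves over `ℚ`, Kuo and Murty, Conrad in general),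
so that the original numerical form is much stronger than the rank form
`ord_{s=1} L(A, s) = rank A(K)`. Here is a numerical form which is EQUIVALENT to the rank form for all
abelian varieties over all number fields, whenever `L(A, s)` has a meromorphic continuation to
`Re s ≥ 1`, without any hypothesis on its zeros and poles.

For a real number `τ` put

`W_τ(T) = ∑_v log (#A(k_v) / q_v ^ g) / Γ(1 + (1 + iτ) log q_v / log T)`

(the sum is over the primes of good reduction), an absolutely convergent series for every `T > 1`;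
its real part is the logarithm of the product of the `(#A(k_v) / q_v ^ g) ^ ω` with the explicit real
weights `ω = Re 1/Γ(1 + (1 + iτ) log q_v / log T)`. Then:

* if `L(A, s)` has no zeros and poles on the ray `{1 + (1 + iτ) x : x > 0}`, then
  `W_τ(T) = r log log T + O(1)`, `r = ord_{s=1} L(A, s)`. For every `B` this is the case for all but
  finitely many `τ` in `[-B, B]`;
* if `L(A, s)` has a zero or pole on the ray, `1 + (1 + iτ) x` the one with the largest `x`, of order `m`,
  then `W_τ(T) ~ m ∫_0^∞ (T^{xu} - 1) du / (u Γ(1 + u))`, and `± Re W_τ(T) ≥ exp (T^c)` for `c < x` and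
  large `T`, with the sign of `m`.

So the rank form holds for `A` if and only if `Re W_τ(T_n) / log log T_n → rank A(K)` for one `τ` and one
sequence `T_n → ∞`, and then `W_τ(T) = rank A(K) log log T + O(1)` in all free directions.

Proof. By Hankel's formula `W_τ(T)` is an integral of `exp (exp z) log L(A, 1 + (1 + iτ) z / log T)`
over the boundary of a half strip of width `2π`. The vertical side is shifted to the last zero or pole on
the ray, or to `1`. The passage from `L(A, s)` to the numbers `#A(k_v) / q_v ^ g` uses Weil's theorem and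
the pole of the zeta function of `K` only.
-/

set_option autoImplicit false

namespace Pool.Agent.Results.MP_1d384c_nt.NumericalCriterion

open NumberField IsDedekindDomain Filter Topology Classical
open Pool.Agent.TH958.BV (cone)
open Pool.Agent.R409.RA (rp rsum)

section defs

variable {K : Type} [Field K] [NumberField K] {n : ℕ}

/-- The residue field of the prime `v`. -/
noncomputable instance residueField (v : HeightOneSpectrum (𝓞 K)) : Field (𝓞 K ⧸ v.asIdeal) :=
  Pool.Agent.R409.RA.fieldQuot v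

/-- The number of the points over the residue field of `v` of the projective scheme `A` defined by the
homogeneous polynomials `X` with coefficients in the integers of `K`. -/
noncomputable def points (X : Set (MvPolynomial (Fin n) (𝓞 K))) (v : HeightOneSpectrum (𝓞 K)) : ℝ :=
  (cone X (Ideal.Quotient.mk v.asIdeal) : ℝ) / ((Ideal.absNorm v.asIdeal : ℝ) - 1)

/-- `α_1, …, α_{2g}` are the eigenvalues of the geometric Frobenius at the prime `v` on the first
cohomology of the abelian variety `A` of dimension `g` defined by `X`: they are the zeros of a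
polynomial with integral coefficients, of absolute value `q_v^{1/2}`, and for every finite extension `κ`
of the residue field of `v`, of degree `e`, the number of the points of `A` with coordinates in `κ` is
`∏ (1 - α_j^e)`. By Weil this holds at all primes of good reduction. -/
def IsFrobenius (X : Set (MvPolynomial (Fin n) (𝓞 K))) (g : ℕ) (v : HeightOneSpectrum (𝓞 K))
    (α : Fin (2 * g) → ℂ) : Prop :=
  (∃ P : Polynomial ℤ, P.map (Int.castRingHom ℂ) = ∏ j, (Polynomial.X - Polynomial.C (α j))) ∧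
    (∀ j, ‖α j‖ = √(Ideal.absNorm v.asIdeal)) ∧
    ∀ (κ : Type) [Field κ] [Finite κ] (φ : 𝓞 K →+* κ) (e : ℕ), RingHom.ker φ = v.asIdeal →
      Nat.card κ = Ideal.absNorm v.asIdeal ^ e →
      (cone X φ : ℂ) = ((Ideal.absNorm v.asIdeal : ℂ) ^ e - 1) * ∏ j, (1 - α j ^ e)

/-- `α_{v,1}, …, α_{v,2g}` are the parameters of the Euler factors of `L(A, s)`: outside the finite set
`S` of primes they are the eigenvalues of Frobenius, and at the primes in `S` any numbers of absolute
value at most `q_v^{1/2}` (the eigenvalues of Frobenius on the inertia invariants, completed by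
zeros). -/
def IsParameter (X : Set (MvPolynomial (Fin n) (𝓞 K))) (g : ℕ)
    (S : Finset (HeightOneSpectrum (𝓞 K))) (α : HeightOneSpectrum (𝓞 K) → Fin (2 * g) → ℂ) : Prop :=
  (∀ v ∉ S, IsFrobenius X g v (α v)) ∧ ∀ v ∈ S, ∀ j, ‖α v j‖ ≤ √(Ideal.absNorm v.asIdeal)

/-- The L-function `L(A, s) = ∏_v ∏_j (1 - α_{v,j} q_v^{-s})⁻¹`. -/
noncomputable def LFun {N : ℕ} (α : HeightOneSpectrum (𝓞 K) → Fin N → ℂ) (s : ℂ) : ℂ :=
  ∏' v : HeightOneSpectrum (𝓞 K), ∏ j, (1 - α v j * (Ideal.absNorm v.asIdeal : ℂ) ^ (-s))⁻¹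

/-- `F` is meromorphic at all points of the half-plane `Re s ≥ 1`, and it is the L-function for
`Re s > 3/2`. -/
def IsContinuation {N : ℕ} (α : HeightOneSpectrum (𝓞 K) → Fin N → ℂ) (F : ℂ → ℂ) : Prop :=
  (∀ s : ℂ, 1 ≤ s.re → MeromorphicAt F s) ∧ ∀ s : ℂ, 3 / 2 < s.re → F s = LFun α s

/-- The term of `W_τ(T)` at `v`. -/
noncomputable def rotTerm (X : Set (MvPolynomial (Fin n) (𝓞 K))) (g : ℕ)
    (S : Finset (HeightOneSpectrum (𝓞 K))) (τ T : ℝ) (v : HeightOneSpectrum (𝓞 K)) : ℂ :=
  if v ∈ S then 0 else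
    (Real.log (points X v / (Ideal.absNorm v.asIdeal : ℝ) ^ g) : ℂ) /
      Complex.Gamma (1 + (1 + τ * Complex.I) * (Real.log (Ideal.absNorm v.asIdeal) / Real.log T))

/-- `W_τ(T)`. -/
noncomputable def rotSum (X : Set (MvPolynomial (Fin n) (𝓞 K))) (g : ℕ)
    (S : Finset (HeightOneSpectrum (𝓞 K))) (τ T : ℝ) : ℂ :=
  ∑' v : HeightOneSpectrum (𝓞 K), rotTerm X g S τ T v

/-- The point `1 + (1 + iτ) x`. -/
noncomputable def ray (τ x : ℝ) : ℂ := 1 + (1 + τ * Complex.I) * x

/-- `F` has a zero or a pole on the ray `{1 + (1 + iτ) x : x > 0}`. -/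
def Blocked (F : ℂ → ℂ) (τ : ℝ) : Prop :=
  ∃ x : ℝ, 0 < x ∧ meromorphicOrderAt F (ray τ x) ≠ 0

/-- `∫_0^∞ (e^{yu} - 1) / (u Γ(1 + u)) du`. -/
noncomputable def grow (y : ℝ) : ℝ :=
  ∫ u in Set.Ioi (0 : ℝ), (Real.exp (y * u) - 1) / (u * Real.Gamma (1 + u))

/-- The conclusion for the free directions. -/
def FreeLaw (F : ℂ → ℂ) (W : ℝ → ℝ → ℂ) (ρ : ℤ) : Prop :=
  ∀ τ : ℝ, ¬ Blocked F τ →
    ∃ M : ℝ, ∀ᶠ T : ℝ in atTop, ‖W τ T - ρ * Real.log (Real.log T)‖ ≤ M

/-- The conclusion for the blocked directions. -/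
def BlockedLaw (F : ℂ → ℂ) (W : ℝ → ℝ → ℂ) : Prop :=
  ∀ τ : ℝ, Blocked F τ → ∃ (x : ℝ) (m : ℤ), 0 < x ∧ m ≠ 0 ∧
    meromorphicOrderAt F (ray τ x) = m ∧ (∀ y : ℝ, x < y → meromorphicOrderAt F (ray τ y) = 0) ∧
    Tendsto (fun T : ℝ => W τ T / grow (x * Real.log T)) atTop (𝓝 m) ∧
    ∀ c < x, ∀ᶠ T : ℝ in atTop, Real.exp (T ^ c) ≤ (Int.sign m : ℝ) * (W τ T).re

/-- The numerical form of the conjecture: for one direction `τ` and one sequence `T_n → ∞` the quotient
`Re W_τ(T_n) / log log T_n` tends to `ρ`. -/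
def NumericalForm (W : ℝ → ℝ → ℂ) (ρ : ℤ) : Prop :=
  ∃ (τ : ℝ) (T : ℕ → ℝ), Tendsto T atTop atTop ∧
    Tendsto (fun n => (W τ (T n)).re / Real.log (Real.log (T n))) atTop (𝓝 ρ)

end defs

section bridge

variable {K : Type} [Field K] [NumberField K] {n g : ℕ} {X : Set (MvPolynomial (Fin n) (𝓞 K))}
  {S : Finset (HeightOneSpectrum (𝓞 K))} {α : HeightOneSpectrum (𝓞 K) → Fin (2 * g) → ℂ}
  {F : ℂ → ℂ}

theorem ray_eq (τ x : ℝ) : ray τ x = rp 1 τ x := by
  unfold ray rp Pool.Agent.W524.RY.dir
  push_cast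
  norm_num

theorem one_eq : (((1 : ℕ) : ℂ) + 1) / 2 = 1 := by
  push_cast
  norm_num

theorem two_le (v : HeightOneSpectrum (𝓞 K)) : (2 : ℝ) ≤ Ideal.absNorm v.asIdeal :=
  Pool.Agent.R409.RA.two_le v

theorem temp (hα : IsParameter X g S α) (v : HeightOneSpectrum (𝓞 K)) (j : Fin (2 * g)) :
    ‖α v j‖ ≤ (Ideal.absNorm v.asIdeal : ℝ) ^ (((1 : ℕ) : ℝ) / 2) := by
  have h1 : (Ideal.absNorm v.asIdeal : ℝ) ^ (((1 : ℕ) : ℝ) / 2) = √(Ideal.absNorm v.asIdeal) := by
    rw [Real.sqrt_eq_rpow]
    norm_num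
  rw [h1]
  by_cases hv : v ∈ S
  · exact hα.2 v hv j
  · exact ((hα.1 v hv).2.1 j).le

theorem cont (hα : IsParameter X g S α) (hF : IsContinuation α F) :
    Pool.Agent.R409.RA.Cont 1 α F where
  temp := temp hα
  mer := fun s hs => hF.1 s (by
    push_cast at hs
    linarith)
  eq := fun s hs => hF.2 s (by
    push_cast at hs
    linarith)

/-- the coefficients -/
noncomputable def coef (X : Set (MvPolynomial (Fin n) (𝓞 K))) (g : ℕ)
    (S : Finset (HeightOneSpectrum (𝓞 K))) (v : HeightOneSpectrum (𝓞 K)) : ℂ :=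
  if v ∈ S then 0 else (Real.log (points X v / (Ideal.absNorm v.asIdeal : ℝ) ^ g) : ℂ)

theorem good (hα : IsParameter X g S α) : Pool.Agent.R409.RA.Good 1 α S (coef X g S) := by
  intro v hv
  unfold coef
  rw [if_neg hv]
  obtain ⟨hP, hn, hc⟩ := hα.1 v hv
  have h2 := two_le v
  have : Finite (𝓞 K ⧸ v.asIdeal) := Pool.Agent.R409.RA.finiteQuot v
  have h3 := hc (𝓞 K ⧸ v.asIdeal) (Ideal.Quotient.mk v.asIdeal) 1 (Ideal.mk_ker)
    (by rw [pow_one]; rfl)
  simp only [pow_one] at h3
  have h4 : ((points X v : ℝ) : ℂ) = ∏ j, (1 - α v j) := by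
    unfold points
    have h5 : ((Ideal.absNorm v.asIdeal : ℂ) - 1) ≠ 0 := by
      have : ((Ideal.absNorm v.asIdeal : ℝ) - 1) ≠ 0 := by linarith
      exact_mod_cast this
    push_cast
    rw [h3]
    field_simp
  have h6 : 0 ≤ points X v := by
    unfold points
    exact div_nonneg (Nat.cast_nonneg _) (by linarith)
  have h7 := Pool.Agent.R409.RA.log_points (by linarith) hn hP h6 h4
  rw [pow_mul, Real.sq_sqrt (by linarith)] at h7
  rw [h7]
  unfold Pool.Agent.R409.RA.cv Pool.Agent.R409.RA.ca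
  refine Finset.sum_congr rfl fun j _ => ?_
  congr 2
  rw [one_eq, Complex.cpow_neg_one, div_eq_mul_inv]
  rfl

theorem term_eq (τ T : ℝ) (v : HeightOneSpectrum (𝓞 K)) :
    rotTerm X g S τ T v = coef X g S v * Pool.Agent.R409.RA.wgt τ (Real.log T) v := by
  unfold rotTerm coef Pool.Agent.R409.RA.wgt Pool.Agent.W524.RY.dir
  split_ifs with h
  · rw [zero_mul]
  · rw [div_eq_mul_inv]
    rfl

theorem sum_eq (τ T : ℝ) : rotSum X g S τ T = rsum (coef X g S) τ T := by
  unfold rotSum rsum
  exact tsum_congr fun v => term_eq τ T v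

theorem not_blocked {τ : ℝ} :
    ¬ Blocked F τ ↔ ∀ x : ℝ, 0 < x → meromorphicOrderAt F (rp 1 τ x) = 0 := by
  unfold Blocked
  push Not
  simp only [ray_eq]

end bridge

/-- **A numerical form of the conjecture which is equivalent to its rank form.** Let `A` be an abelian
variety of dimension `g` over a number field `K`, defined by the homogeneous polynomials `X`, `S` a finite
set of primes of `K` which contains the primes of bad reduction of `A` (or of `X`), and `F` a
meromorphic continuation of `L(A, s)` to `Re s ≥ 1`. Then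

* the series `W_τ(T)` converges absolutely for all `T > 1`;
* only finitely many directions `τ` in every bounded interval are blocked;
* for the free directions `W_τ(T) = r log log T + O(1)`, `r = ord_{s=1} F`;
* for the blocked directions `W_τ(T)` is `m ∫_0^∞ (T^{xu} - 1) du / (u Γ(1 + u)) (1 + o(1))`, where
  `1 + (1 + iτ) x` is the last zero or pole on the ray, of order `m`, and `± Re W_τ(T) ≥ exp (T^c)`;
* for every integer `ρ`, in particular for `ρ = rank A(K)`, the assertions `ord_{s=1} F = ρ`,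
  `Re W_τ(T_n) / log log T_n → ρ` for one `τ` and one sequence `T_n → ∞`, and
  `W_τ(T) = ρ log log T + O(1)` for all free directions `τ`, are equivalent. -/
theorem result (K : Type) [Field K] [NumberField K] (n g : ℕ)
    (X : Set (MvPolynomial (Fin n) (𝓞 K))) (S : Finset (HeightOneSpectrum (𝓞 K)))
    (α : HeightOneSpectrum (𝓞 K) → Fin (2 * g) → ℂ) (hα : IsParameter X g S α) (F : ℂ → ℂ)
    (hF : IsContinuation α F) :
    (∀ τ T : ℝ, 1 < T → Summable fun v => ‖rotTerm X g S τ T v‖) ∧
    (∀ B : ℝ, {τ : ℝ | |τ| ≤ B ∧ Blocked F τ}.Finite) ∧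
    (∃ r : ℤ, meromorphicOrderAt F 1 = r ∧ FreeLaw F (rotSum X g S) r) ∧
    BlockedLaw F (rotSum X g S) ∧
    ∀ ρ : ℤ, List.TFAE [
      meromorphicOrderAt F 1 = ρ,
      NumericalForm (rotSum X g S) ρ,
      FreeLaw F (rotSum X g S) ρ] := by
  have hc := cont hα hF
  have hg := good hα
  refine ⟨fun τ T hT => ?_, fun B => ?_, ?_, ?_, fun ρ => ?_⟩
  · simp only [term_eq]
    exact Pool.Agent.R409.RA.rsum_summable hc.temp hg τ hT
  · simpa only [Blocked, ray_eq] using hc.blocked_finite B
  · obtain ⟨r, hr⟩ := WithTop.ne_top_iff_exists.1 (hc.ne_top (s := 1) (by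
      push_cast
      norm_num))
    refine ⟨r, hr.symm, fun τ hτ => ?_⟩
    simp only [sum_eq]
    exact Pool.Agent.R409.RA.free hc hg τ (by rw [one_eq]; exact hr.symm) (not_blocked.1 hτ)
  · intro τ hτ
    obtain ⟨y, hy, hyz⟩ := hτ
    rw [ray_eq] at hyz
    obtain ⟨x₀, h0, h01, hnz, hz⟩ := hc.exists_last τ
    have hx0 : 0 < x₀ := by
      by_contra hcon
      exact hyz (hnz y (by linarith))
    have hz' : meromorphicOrderAt F (rp 1 τ x₀) ≠ 0 := by
      rcases hz with h2 | h2
      · exact absurd h2 hx0.ne'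
      · exact h2
    obtain ⟨m, hm⟩ := WithTop.ne_top_iff_exists.1 (hc.ne_top (s := rp 1 τ x₀) (by
      rw [Pool.Agent.R409.RA.rp_re]
      linarith))
    have hm0 : m ≠ 0 := by
      rintro rfl
      exact hz' (by rw [← hm]; rfl)
    obtain ⟨h2, h3⟩ := Pool.Agent.R409.RA.blocked hc hg τ hx0 h01 hm.symm hm0 hnz
    simp only [sum_eq, ray_eq]
    exact ⟨x₀, m, hx0, hm0, hm.symm, hnz, h2, h3⟩
  · have h1 := Pool.Agent.R409.RA.tfae hc hg ρ
    rw [one_eq] at h1
    unfold NumericalForm FreeLaw
    simp only [sum_eq, not_blocked]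
    exact h1

end Pool.Agent.Results.MP_1d384c_nt.NumericalCriterion
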