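import Pool.Agent.R409.RC.LocP

/-!
# The order and the leading coefficient of `L(A, s)` from finite sums over the numbers of points,
without any hypothesis on the zeros

Let `A` be an abelian variety of dimension `g` over a number field `K`. Birch and Swinnerton-Dyer
compared the rank of `A(K)` with the growth of the products of the numbers `q_v^g / #A(k_v)` over the
primes `q_v ≤ T`. We replace the sharp cut-off by the weights `κ_γ(u) = e^{iγu} / Γ(1 + u)`, where
`γ > π/2` is any real number, and prove for all abelian varieties over number fields, whenever `L(A, s)`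
has a meromorphic continuation to a neighbourhood of the real segment `[1, 3/2]`, and without any
hypothesis on its zeros and poles: with `u = log q_v / T`,

`V_γ(T) = ∑ κ_γ(u) log (q_v^g / #A(k_v)) = - r log T + O(1)`,

`V*_γ(T) = V_γ(T) + ∑ ½ (κ_γ(u) - κ_γ(2u)) log (#A(k_{v,2}) / q_v^{2g})`
`       = log |L*(A, 1)| - π i n - r (log T - Λ_γ) + O(1/T)`.

Both are finite sums over the primes of good reduction with `q_v ≤ exp (exp T)`, `k_{v,2}` is the
quadratic extension of the residue field `k_v`, `r` is the order and `L*(A, 1)` the leading coefficient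
at `s = 1` of the L-function without the Euler factors in `S`, `n` is the number of its real zeros minus
the number of its real poles to the right of `1`, and
`Λ_γ = ∫_0^∞ (e^{-t} - e^{iγt} / Γ(1 + t)) dt / t`.

So the rank form of the conjecture holds for `A` if and only if `Re V_γ(T_k) / log T_k → - rank A(K)`
along one sequence `T_k → ∞`, and the rank form together with the formula for the leading coefficient
holds if and only if `T^ρ exp V*_γ(T)` tends to `B exp(ρ Λ_γ)`, where `ρ` is the rank and `B` the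
algebraic side. The asymptotic formula with the sharp cut-off implies the Riemann hypothesis for
`L(A, s)` (Goldfeld for elliptic curves over `ℚ`, Kuo and Murty, Conrad in general).
-/

set_option autoImplicit false

namespace Pool.Agent.Results.MP_1d384c_nt.PointCountsAllPhases

open NumberField IsDedekindDomain Filter Topology
open Pool.Agent.TH958.BV (cone)

section defs

variable {K : Type} [Field K] [NumberField K] {n : ℕ}

/-- The residue field of the prime `v`. -/
noncomputable instance residueField (v : HeightOneSpectrum (𝓞 K)) : Field (𝓞 K ⧸ v.asIdeal) :=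
  Pool.Agent.R409.RA.fieldQuot v

/-- `q_v`. -/
noncomputable def normOf (v : HeightOneSpectrum (𝓞 K)) : ℝ := (Ideal.absNorm v.asIdeal : ℝ)

/-- The number of the points over the residue field of `v` of the projective scheme `A` defined by the
homogeneous polynomials `X` with coefficients in the integers of `K`. -/
noncomputable def points (X : Set (MvPolynomial (Fin n) (𝓞 K))) (v : HeightOneSpectrum (𝓞 K)) : ℝ :=
  (cone X (Ideal.Quotient.mk v.asIdeal) : ℝ) / (normOf v - 1)

/-- The number of the points of `A` over the quadratic extension `κ` of the residue field of `v`, given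
by the homomorphism `φ`. -/
noncomputable def points₂ (X : Set (MvPolynomial (Fin n) (𝓞 K))) (v : HeightOneSpectrum (𝓞 K))
    {κ : Type} [Field κ] (φ : 𝓞 K →+* κ) : ℝ :=
  (cone X φ : ℝ) / (normOf v ^ 2 - 1)

/-- `α_1, …, α_{2g}` are the eigenvalues of the geometric Frobenius at the prime `v` on the first
cohomology of the abelian variety `A` of dimension `g` defined by `X`: they are the zeros of a
polynomial with integral coefficients, of absolute value `q_v^{1/2}`, and for every finite extension `κ`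
of the residue field of `v`, of degree `e`, the number of the points of `A` with coordinates in `κ` is
`∏ (1 - α_j^e)`. By Weil this holds at all primes of good reduction. -/
def IsFrobenius (X : Set (MvPolynomial (Fin n) (𝓞 K))) (g : ℕ) (v : HeightOneSpectrum (𝓞 K))
    (α : Fin (2 * g) → ℂ) : Prop :=
  (∃ P : Polynomial ℤ, P.map (Int.castRingHom ℂ) = ∏ j, (Polynomial.X - Polynomial.C (α j))) ∧
    (∀ j, ‖α j‖ = √(normOf v)) ∧
    ∀ (κ : Type) [Field κ] [Finite κ] (φ : 𝓞 K →+* κ) (e : ℕ), RingHom.ker φ = v.asIdeal →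
      Nat.card κ = Ideal.absNorm v.asIdeal ^ e →
      (cone X φ : ℂ) = ((Ideal.absNorm v.asIdeal : ℂ) ^ e - 1) * ∏ j, (1 - α j ^ e)

/-- `α_{v,1}, …, α_{v,2g}` are the parameters of the Euler factors of `L_S(A, s)`, the L-function without
the Euler factors at the finite set `S` of primes: the eigenvalues of Frobenius for `v` outside `S`,
and zeros for `v` in `S`. -/
def IsParameter (X : Set (MvPolynomial (Fin n) (𝓞 K))) (g : ℕ)
    (S : Finset (HeightOneSpectrum (𝓞 K))) (α : HeightOneSpectrum (𝓞 K) → Fin (2 * g) → ℂ) : Prop :=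
  (∀ v ∉ S, IsFrobenius X g v (α v)) ∧ ∀ v ∈ S, ∀ j, α v j = 0

/-- The L-function `L_S(A, s) = ∏_v ∏_j (1 - α_{v,j} q_v^{-s})⁻¹`. -/
noncomputable def LFun {N : ℕ} (α : HeightOneSpectrum (𝓞 K) → Fin N → ℂ) (s : ℂ) : ℂ :=
  ∏' v : HeightOneSpectrum (𝓞 K), ∏ j, (1 - α v j * (Ideal.absNorm v.asIdeal : ℂ) ^ (-s))⁻¹

/-- `F` is meromorphic at the points of the real segment `[1, 3/2]`, and it is the L-function for
`Re s > 3/2`. -/
def IsContinuation {N : ℕ} (α : HeightOneSpectrum (𝓞 K) → Fin N → ℂ) (F : ℂ → ℂ) : Prop :=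
  (∀ σ : ℝ, 1 ≤ σ → σ ≤ 3 / 2 → MeromorphicAt F (σ : ℂ)) ∧ ∀ s : ℂ, 3 / 2 < s.re → F s = LFun α s

/-- The weight `κ_γ(u) = e^{iγu} / Γ(1 + u)`. -/
noncomputable def weight (γ u : ℝ) : ℂ :=
  Complex.exp (Complex.I * (γ * u)) / Complex.Gamma (1 + u)

/-- `κ_γ(u) log (q_v^g / #A(k_v))`, `u = log q_v / T`. -/
noncomputable def firstTerm (X : Set (MvPolynomial (Fin n) (𝓞 K))) (g : ℕ) (γ T : ℝ)
    (v : HeightOneSpectrum (𝓞 K)) : ℂ :=
  weight γ (Real.log (normOf v) / T) * Real.log (normOf v ^ g / points X v)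

/-- `½ (κ_γ(u) - κ_γ(2u)) log (#A(k_{v,2}) / q_v^{2g})`, `u = log q_v / T`. -/
noncomputable def secondTerm (X : Set (MvPolynomial (Fin n) (𝓞 K))) (g : ℕ) (γ T : ℝ)
    (v : HeightOneSpectrum (𝓞 K)) {κ : Type} [Field κ] (φ : 𝓞 K →+* κ) : ℂ :=
  (weight γ (Real.log (normOf v) / T) - weight γ (2 * Real.log (normOf v) / T)) / 2 *
    Real.log (points₂ X v φ / normOf v ^ (2 * g))

/-- The finite sum `∑ f(v)` over the primes outside `S` with `q_v ≤ exp (exp T)`. -/
noncomputable def sumUpTo (S : Finset (HeightOneSpectrum (𝓞 K))) (T : ℝ)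
    (f : HeightOneSpectrum (𝓞 K) → ℂ) : ℂ :=
  ∑ᶠ v ∈ {v : HeightOneSpectrum (𝓞 K) | v ∉ S ∧ normOf v ≤ Real.exp (Real.exp T)}, f v

/-- `Λ_γ = ∫_0^∞ (e^{-t} - e^{iγt} / Γ(1 + t)) dt / t`. -/
noncomputable def lam (γ : ℝ) : ℂ :=
  ∫ t in Set.Ioi (0 : ℝ), (Real.exp (-t) - weight γ t) / t

/-- The number of the real zeros minus the number of the real poles of `F` to the right of `1`, with
multiplicities. -/
noncomputable def excess (F : ℂ → ℂ) : ℤ :=
  ∑ᶠ σ ∈ Set.Ioi (1 : ℝ), (meromorphicOrderAt F (σ : ℂ)).untop₀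

end defs

section bridge

open Pool.Agent.R409.RC Pool.Agent.R409.RA

variable {K : Type} [Field K] [NumberField K] {n g : ℕ} {X : Set (MvPolynomial (Fin n) (𝓞 K))}
  {S : Finset (HeightOneSpectrum (𝓞 K))} {α : HeightOneSpectrum (𝓞 K) → Fin (2 * g) → ℂ}
  {F : ℂ → ℂ}

theorem weight_eq {γ u : ℝ} : weight γ u = Pool.Agent.W187.S2.kk γ u := by
  unfold weight Pool.Agent.W187.S2.kk Pool.Agent.W189.ML.om
  have h1 : Complex.Gamma (1 + u) = ((Real.Gamma (1 + u) : ℝ) : ℂ) := by
    rw [← Complex.Gamma_ofReal]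
    push_cast
    rfl
  rw [h1, div_eq_mul_inv]
  push_cast
  congr 2
  ring

theorem lam_eq (γ : ℝ) : lam γ = Pool.Agent.W187.UR.Lam γ := by
  unfold lam Pool.Agent.W187.UR.Lam
  refine MeasureTheory.integral_congr_ae (Filter.Eventually.of_forall fun t => ?_)
  simp only
  rw [weight_eq]
  unfold Pool.Agent.W187.S2.kk Pool.Agent.W189.ML.om
  push_cast
  rfl

theorem one_eq : (((1 : ℕ) : ℂ) + 1) / 2 = 1 := by
  push_cast
  norm_num

theorem centre_eq : ((((1 : ℕ) : ℝ) + 1) / 2 : ℝ) = 1 := by norm_num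

theorem two_le' (v : HeightOneSpectrum (𝓞 K)) : 2 ≤ normOf v := Pool.Agent.R409.RA.two_le v

theorem temp (hα : IsParameter X g S α) (v : HeightOneSpectrum (𝓞 K)) (j : Fin (2 * g)) :
    ‖α v j‖ ≤ (Ideal.absNorm v.asIdeal : ℝ) ^ (((1 : ℕ) : ℝ) / 2) := by
  have h1 : (Ideal.absNorm v.asIdeal : ℝ) ^ (((1 : ℕ) : ℝ) / 2) = √(normOf v) := by
    rw [Real.sqrt_eq_rpow]
    norm_num
    rfl
  rw [h1]
  by_cases hv : v ∈ S
  · rw [hα.2 v hv j, norm_zero]
    exact Real.sqrt_nonneg _
  · exact ((hα.1 v hv).2.1 j).le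

theorem ci (hα : IsParameter X g S α) (v : HeightOneSpectrum (𝓞 K)) : CI (α v) := by
  by_cases hv : v ∈ S
  · unfold CI
    congr 1
    funext j
    rw [hα.2 v hv j, map_zero]
  · exact conj_stable (hα.1 v hv).1

theorem scont (hF : IsContinuation α F) : SCont 1 α F where
  mer := fun σ h1 h2 => hF.1 σ (by push_cast at h1; linarith) (by push_cast at h2; linarith)
  eq := fun s hs => hF.2 s (by push_cast at hs; linarith)

theorem excess_eq : excess F = exc 1 F := by
  unfold excess exc
  rw [centre_eq]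

/-- the parameters at the point `1` -/
theorem ca_one (v : HeightOneSpectrum (𝓞 K)) (j : Fin (2 * g)) :
    ca 1 α v j = α v j / normOf v := by
  unfold ca
  rw [one_eq, Complex.cpow_neg_one, div_eq_mul_inv]
  unfold normOf
  push_cast
  rfl

theorem log_one (hα : IsParameter X g S α) {v : HeightOneSpectrum (𝓞 K)} (hv : v ∉ S) :
    Real.log (points X v / normOf v ^ g) = c1 (ca 1 α) v := by
  obtain ⟨hP, hn, hc⟩ := hα.1 v hv
  have h2 := two_le' v
  have : Finite (𝓞 K ⧸ v.asIdeal) := Pool.Agent.R409.RA.finiteQuot v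
  have h3 := hc (𝓞 K ⧸ v.asIdeal) (Ideal.Quotient.mk v.asIdeal) 1 (Ideal.mk_ker)
    (by rw [pow_one]; rfl)
  simp only [pow_one] at h3
  have h4 : ((points X v : ℝ) : ℂ) = ∏ j, (1 - α v j) := by
    unfold points
    have h5 : ((Ideal.absNorm v.asIdeal : ℂ) - 1) ≠ 0 := by
      have : (normOf v - 1) ≠ 0 := by linarith
      unfold normOf at this
      exact_mod_cast this
    unfold normOf
    push_cast
    rw [h3]
    field_simp
  have h6 : 0 ≤ points X v := by
    unfold points
    exact div_nonneg (Nat.cast_nonneg _) (by linarith)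
  have h7 := log_points (by linarith) hn hP h6 h4
  rw [pow_mul, Real.sq_sqrt (by linarith)] at h7
  unfold c1
  rw [show cv (ca 1 α) v = ((Real.log (points X v / normOf v ^ g) : ℝ) : ℂ) by
    rw [h7]
    unfold cv
    exact Finset.sum_congr rfl fun j _ => by rw [ca_one], Complex.ofReal_re]

theorem log_two (hα : IsParameter X g S α) {v : HeightOneSpectrum (𝓞 K)} (hv : v ∉ S)
    {κ : Type} [Field κ] [Finite κ] (φ : 𝓞 K →+* κ) (hk : RingHom.ker φ = v.asIdeal)
    (hcard : Nat.card κ = Ideal.absNorm v.asIdeal ^ 2) :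
    Real.log (points₂ X v φ / normOf v ^ (2 * g)) = c2 (ca 1 α) v := by
  obtain ⟨hP, hn, hc⟩ := hα.1 v hv
  have h2 := two_le' v
  have h3 := hc κ φ 2 hk hcard
  have h4 : ((points₂ X v φ : ℝ) : ℂ) = ∏ j, (1 - α v j ^ 2) := by
    unfold points₂
    have h5 : ((Ideal.absNorm v.asIdeal : ℂ) ^ 2 - 1) ≠ 0 := by
      have : (normOf v ^ 2 - 1) ≠ 0 := by nlinarith
      unfold normOf at this
      exact_mod_cast this
    unfold normOf
    push_cast
    rw [h3]
    field_simp
  have h6 : 0 ≤ points₂ X v φ := by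
    unfold points₂
    exact div_nonneg (Nat.cast_nonneg _) (by nlinarith)
  have hsq : √(normOf v ^ 2) = normOf v := Real.sqrt_sq (by linarith)
  have h7 := log_points' (q := normOf v ^ 2) (α := fun j => α v j ^ 2) (by nlinarith)
    (fun j => by
      rw [norm_pow, hn j, Real.sq_sqrt (by linarith), hsq]) (ci hα v).sq h6 h4
  rw [hsq] at h7
  unfold c2
  rw [show cv2 (ca 1 α) v = ((Real.log (points₂ X v φ / normOf v ^ (2 * g)) : ℝ) : ℂ) by
    rw [h7]
    unfold cv2
    refine Finset.sum_congr rfl fun j _ => ?_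
    rw [ca_one, div_pow]
    push_cast
    rfl, Complex.ofReal_re]

theorem c1_zero (hα : IsParameter X g S α) {v : HeightOneSpectrum (𝓞 K)} (hv : v ∈ S) :
    c1 (ca 1 α) v = 0 := by
  unfold c1 cv
  simp [ca_one, hα.2 v hv]

theorem c2_zero (hα : IsParameter X g S α) {v : HeightOneSpectrum (𝓞 K)} (hv : v ∈ S) :
    c2 (ca 1 α) v = 0 := by
  unfold c2 cv2
  simp [ca_one, hα.2 v hv]

theorem first_eq (hα : IsParameter X g S α) (γ T : ℝ) :
    sumUpTo S T (firstTerm X g γ T) = F1 (ca 1 α) γ T := by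
  unfold F1
  rw [fin_eq (S := (S : Set (HeightOneSpectrum (𝓞 K)))) T (fun v hv => by
    unfold f1
    rw [c1_zero hα hv]
    simp)]
  unfold sumUpTo
  refine finsum_mem_congr rfl fun v hv => ?_
  have hvS : v ∉ S := hv.1
  unfold firstTerm f1
  rw [weight_eq, ← log_one hα hvS, ← Real.log_inv, inv_div]
  rfl

theorem second_eq (hα : IsParameter X g S α) {κ : HeightOneSpectrum (𝓞 K) → Type}
    [∀ v, Field (κ v)] [∀ v, Finite (κ v)] {φ : ∀ v, 𝓞 K →+* κ v}
    (hφ : ∀ v, RingHom.ker (φ v) = v.asIdeal ∧ Nat.card (κ v) = Ideal.absNorm v.asIdeal ^ 2)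
    (γ T : ℝ) : sumUpTo S T (fun v => firstTerm X g γ T v + secondTerm X g γ T v (φ v)) =
      F2 (ca 1 α) γ T := by
  unfold F2
  rw [fin_eq (S := (S : Set (HeightOneSpectrum (𝓞 K)))) T (fun v hv => by
    unfold f2 f1 s2
    rw [c1_zero hα hv, c2_zero hα hv]
    simp)]
  unfold sumUpTo
  refine finsum_mem_congr rfl fun v hv => ?_
  have hvS : v ∉ S := hv.1
  unfold firstTerm secondTerm f2 f1 s2
  rw [weight_eq, weight_eq, ← log_one hα hvS, ← Real.log_inv, inv_div,
    ← log_two hα hvS (φ v) (hφ v).1 (hφ v).2]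
  have e1 : lv v = Real.log (normOf v) := rfl
  rw [e1]
  ring

end bridge

/-- **The order and the leading coefficient from finite sums over numbers of points.** Let `A` be an
abelian variety of dimension `g` over a number field `K`, defined by the homogeneous polynomials `X`, `S`
a finite set of primes of `K` which contains the primes of bad reduction of `A` (or of `X`), `φ_v` the
homomorphisms to quadratic extensions `κ_v` of the residue fields, and `F` a continuation of `L_S(A, s)`
which is meromorphic on the real segment `[1, 3/2]`. Then `F` has a finite order `r` at `1` and a real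
leading coefficient `l ≠ 0`, and for every `γ > π/2`:

* `V_γ(T) = - r log T + O(1)`;
* `V*_γ(T) = log |l| - π i n - r (log T - Λ_γ) + O(1/T)`;
* `ord_{s=1} F = ρ` for an integer `ρ` (for example the rank of `A(K)`) if and only if
  `Re V_γ(T_k) / log T_k → - ρ` for one sequence `T_k → ∞`;
* `F` has the order `ρ` and the leading coefficient `B ≠ 0` at `1` if and only if
  `T ^ ρ exp V*_γ(T) → B exp(ρ Λ_γ)`. -/
theorem result (K : Type) [Field K] [NumberField K] (n g : ℕ)
    (X : Set (MvPolynomial (Fin n) (𝓞 K))) (S : Finset (HeightOneSpectrum (𝓞 K)))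
    (κ : HeightOneSpectrum (𝓞 K) → Type) [∀ v, Field (κ v)] [∀ v, Finite (κ v)]
    (φ : ∀ v, 𝓞 K →+* κ v)
    (_ : ∀ v, RingHom.ker (φ v) = v.asIdeal ∧ Nat.card (κ v) = Ideal.absNorm v.asIdeal ^ 2)
    (α : HeightOneSpectrum (𝓞 K) → Fin (2 * g) → ℂ) (_ : IsParameter X g S α) (F : ℂ → ℂ)
    (_ : IsContinuation α F) :
    ∃ (r : ℤ) (l : ℝ), l ≠ 0 ∧ meromorphicOrderAt F 1 = r ∧ meromorphicTrailingCoeffAt F 1 = l ∧
      ∀ γ : ℝ, Real.pi / 2 < γ →
        (∃ C T₀ : ℝ, ∀ T : ℝ, T₀ ≤ T →
          ‖sumUpTo S T (firstTerm X g γ T) + r * Real.log T‖ ≤ C) ∧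
        (∃ C T₀ : ℝ, ∀ T : ℝ, T₀ ≤ T →
          ‖sumUpTo S T (fun v => firstTerm X g γ T v + secondTerm X g γ T v (φ v)) -
            (Real.log |l| - Real.pi * Complex.I * excess F - r * (Real.log T - lam γ))‖ ≤ C / T) ∧
        (∀ ρ : ℤ, meromorphicOrderAt F 1 = ρ ↔ ∃ T : ℕ → ℝ, Tendsto T atTop atTop ∧
          Tendsto (fun k => (sumUpTo S (T k) (firstTerm X g γ (T k))).re / Real.log (T k)) atTop
            (𝓝 (-ρ))) ∧
        ∀ (ρ : ℤ) (B : ℝ), B ≠ 0 →
          ((meromorphicOrderAt F 1 = ρ ∧ meromorphicTrailingCoeffAt F 1 = B) ↔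
            Tendsto (fun T : ℝ => (T : ℂ) ^ ρ * Complex.exp (sumUpTo S T
              (fun v => firstTerm X g γ T v + secondTerm X g γ T v (φ v)))) atTop
              (𝓝 (B * Complex.exp (ρ * lam γ)))) := by
  rename_i hφ hα hF
  obtain ⟨m, l, hl, hm, hlc, hexp, hlaw⟩ := (scont hF).fin (temp hα) (ci hα)
  rw [centre_eq] at hm hlc
  rw [Complex.ofReal_one] at hm hlc
  rw [← excess_eq] at hexp hlaw
  refine ⟨m, l, hl, hm, hlc, fun γ hγ => ?_⟩
  obtain ⟨⟨C, T₀, hC, hT₀, hT⟩, hL⟩ := hlaw γ hγ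
  have hL' := hL
  obtain ⟨C', T₁, hC', hT₁, hT'⟩ := hL'
  refine ⟨⟨C, T₀, fun T h => ?_⟩, ⟨C', T₁, fun T h => ?_⟩, fun ρ => ?_, fun ρ B hB => ?_⟩
  · rw [first_eq hα]
    exact hT T h
  · rw [second_eq hα hφ, lam_eq]
    refine le_trans (le_of_eq ?_) (hT' T h)
    congr 1
    ring
  · rw [hm]
    simp only [first_eq hα]
    have h1 := Pool.Agent.R409.RC.bdd_iff_seq hT ρ
    constructor
    · intro h2
      exact h1.1 (by exact_mod_cast h2)
    · intro h2
      rw [h1.2 h2]
  · rw [hm, hlc]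
    simp only [second_eq hα hφ, lam_eq]
    have hBc : (B : ℂ) ≠ 0 := by exact_mod_cast hB
    have h1 := hL.iff_exp ρ hBc
    rw [hexp] at h1
    constructor
    · rintro ⟨h2, h3⟩
      refine (h1.1 ⟨by exact_mod_cast h2, h3⟩).congr fun T => ?_
      rw [mul_comm]
    · intro h2
      obtain ⟨h3, h4⟩ := h1.2 (h2.congr fun T => by rw [mul_comm])
      exact ⟨by rw [h3], h4⟩

end Pool.Agent.Results.MP_1d384c_nt.PointCountsAllPhases
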