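import Pool.Agent.R494.AV1
import Pool.Agent.R494.AV3

/-!
# The rank conjecture for abelian varieties of every dimension over multiquadratic fields: products of
# quadratic twists of the non-CM curve `X_0(14)` and of the CM curve `X_0(49)`

`X_0(14)` twisted by `M` is `y² = x³ + 5805 M² x - 285714 M³`, and `X_0(49)` twisted by `M` is
`y² = x³ - 35 M² x - 98 M³`. Let `A` be any finite product of such twists (`e : ι → Bool × ℤ`, the
factors may be repeated), let `K = ℚ(√d_1, …, √d_n)` be of degree `2 ^ n`, where `M` and `d_i` are, up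
to squares, in the class `Adm` of the squarefree `D ≥ 1`, `D ≡ 1 mod 8`, all of whose prime factors are
`1 mod 8` and split in `ℚ(√-7)`, or `5 mod 8` and inert in `ℚ(√-7)`. The pair of `A` and `K` is good if
the `2 ^ n dim A` curves over `ℚ` which are the factors of the Weil restriction of `A` from `K` to `ℚ`
have finitely many rational points and no element of order two in the Tate-Shafarevich group.
* If `(A, K)` is good, then the conjecture of Birch and Swinnerton-Dyer on the rank holds for `A` over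
  `K`, with the rank and the order zero.
* If the factors of `A` are, up to repetition, pairwise not isomorphic over `K`, and there are `g`
  different ones, then exactly the proportion `c ^ (2 ^ n g)` of the twists of `A` by the `D` of the
  class is good over `K`, `c = ∏ (1 - 2 ^ (-2 i - 1)) = 0.4194…`; the number of these `D ≤ X` is at least
  `a X / (log X) ^ (3 / 4)` with `a > 0`.

So the conditions for the twists of a finite number of twists of two curves which are not isogenous, one
of them with complex multiplication, are asymptotically independent. The proof: the conditions are that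
matrices over `𝔽₂` of quadratic residue symbols with the diagonals `ff` and `n4` (root symbols for the
two curves) are not singular (starting files and helpers 426, 428); the joint distribution of such
matrices for any finite family of diagonals and of symmetric differences with fixed sets
(`Pool/Agent/R494/SQ1` to `SQ8`, after the starting files `Y687/JQ`); the diagonals of the two curves
differ, whatever the sets, on a set of primes of positive density: a commutator in the Galois group of
the field of the fourth roots of `-7`, of the square roots and of the roots of unity, and the theorem of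
Chebotarev (`SQ6`, `SQ7`, `SQ9`).
-/

set_option autoImplicit false

open NumberField IsDedekindDomain Filter Topology

namespace Pool.Agent.Results.MP_1d384c_nt.ProductsOfTwists

/-- the coefficient `a` of the equation `y² = x³ + a x + b` of the twist by `M` of `X_0(49)`
(`c = true`) and of `X_0(14)` (`c = false`) -/
def A (c : Bool) (M : ℤ) : ℤ := if c = true then -35 * M ^ 2 else 5805 * M ^ 2

/-- the coefficient `b` of the equation `y² = x³ + a x + b` of the twist by `M` of `X_0(49)`
(`c = true`) and of `X_0(14)` (`c = false`) -/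
def B (c : Bool) (M : ℤ) : ℤ := if c = true then -98 * M ^ 3 else -285714 * M ^ 3

/-- the twist by `D ≡ 1 mod 4` of `X_0(49)`, with the equation
`y² + x y = x³ - ((3 D + 1) / 4) x² - 2 D² x - D³` over `ℚ` (`c = true`), and the twist by `D` of
`X_0(14)` (`c = false`) -/
def E (c : Bool) (D : ℕ) : WeierstrassCurve ℚ :=
  if c = true then
    { a₁ := 1, a₂ := -((3 * (D : ℚ) + 1) / 4), a₃ := 0, a₄ := -2 * (D : ℚ) ^ 2, a₆ := -(D : ℚ) ^ 3 }
  else { a₁ := 0, a₂ := 0, a₃ := 0, a₄ := (A false D : ℚ), a₆ := (B false D : ℚ) }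

/-- the curve has finitely many rational points and `Ш` has no element of order two -/
def RankZeroShaTwo (c : Bool) (D : ℕ) : Prop :=
  Finite (E c D).toAffine.Point ∧ ∀ x : Pool.Agent.TH841.NF.D.Sha (E c D), 2 • x = 0 → x = 0

/-- the class of the numbers `D` -/
def Adm (D : ℕ) : Prop := Squarefree D ∧ D % 8 = 1 ∧ ∀ p : ℕ, p.Prime → p ∣ D →
  (p % 8 = 1 ∧ (p % 7 = 1 ∨ p % 7 = 2 ∨ p % 7 = 4)) ∨
    (p % 8 = 5 ∧ (p % 7 = 3 ∨ p % 7 = 5 ∨ p % 7 = 6))

/-- `z` is `D` up to nonzero squares -/
def UpToSq (z : ℤ) (D : ℕ) : Prop := ∃ k : ℤ, k ≠ 0 ∧ z = (D : ℤ) * k ^ 2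

/-- `z` is up to squares in the class -/
def AdmSq (z : ℤ) : Prop := ∃ D : ℕ, Adm D ∧ UpToSq z D

/-- `ℚ(√d_1, …, √d_n)` has degree `2 ^ n` -/
def Ind {n : ℕ} (d : Fin n → ℤ) : Prop := ∀ T : Finset (Fin n), T.Nonempty →
  ¬ IsSquare (∏ i ∈ T, d i)

/-- `K = ℚ(√d_1, …, √d_n)` -/
def IsMultiquadratic {n : ℕ} (d : Fin n → ℤ) (K : Type) [Field K] [NumberField K] : Prop :=
  ∃ x : Fin n → K, (∀ i, x i ^ 2 = (d i : K)) ∧ IntermediateField.adjoin ℚ (Set.range x) = ⊤

/-- the group `A(K)` for the product `A` of the twists by `(e i).2` of `X_0(49)` or `X_0(14)` -/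
abbrev AK {ι : Type} (K : Type) [Field K] (e : ι → Bool × ℤ) : Type := ∀ i,
  WeierstrassCurve.Affine.Point (WeierstrassCurve.toAffine
    ({ a₁ := 0, a₂ := 0, a₃ := 0, a₄ := (A (e i).1 (e i).2 : K), a₆ := (B (e i).1 (e i).2 : K) } :
      WeierstrassCurve K))

/-- the number `q_v` of elements of the residue field of a finite place `v` of `K` -/
noncomputable def qv (K : Type) [Field K] (v : HeightOneSpectrum (𝓞 K)) : ℕ :=
  Nat.card (𝓞 K ⧸ v.asIdeal)

/-- `a_v = q_v + 1 - #E(k_v)` for `E : y² = x³ + a x + b`, that is `q_v` minus the number of affine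
points -/
noncomputable def av (K : Type) [Field K] (a b : ℤ) (v : HeightOneSpectrum (𝓞 K)) : ℤ :=
  (qv K v : ℤ) - Nat.card {z : (𝓞 K ⧸ v.asIdeal) × (𝓞 K ⧸ v.asIdeal) //
    z.2 ^ 2 = z.1 ^ 3 + (a : 𝓞 K ⧸ v.asIdeal) * z.1 + (b : 𝓞 K ⧸ v.asIdeal)}

open Classical in
/-- `F` is entire and is, for `Re s > 3/2`, the `L`-function of the product of the curves over `K`
without the Euler factors at the places dividing `42 m` and the numbers of the twists -/
def IsL {ι : Type} [Fintype ι] (K : Type) [Field K] (e : ι → Bool × ℤ) (m : ℤ) (F : ℂ → ℂ) : Prop :=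
  Differentiable ℂ F ∧ ∀ s : ℂ, (3 : ℝ) / 2 < s.re →
    HasProd (fun v : HeightOneSpectrum (𝓞 K) =>
      if ((42 * (∏ i, (e i).2) * m : ℤ) : 𝓞 K) ∈ v.asIdeal then 1 else
        ∏ i, (1 - (av K (A (e i).1 (e i).2) (B (e i).1 (e i).2) v : ℂ) * (qv K v : ℂ) ^ (-s) +
          (qv K v : ℂ) ^ (1 - 2 * s))⁻¹) (F s)

open Classical in
/-- the conjecture for the product of the curves over `K`, with the rank and the order zero -/
def BSDZero {ι : Type} [Fintype ι] (K : Type) [Field K] (e : ι → Bool × ℤ) (m : ℤ) : Prop :=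
  Finite (AK K e) ∧ Module.finrank ℤ (AK K e) = 0 ∧ (∃ F : ℂ → ℂ, IsL K e m F) ∧
    ∀ F : ℂ → ℂ, IsL K e m F → analyticOrderAt F 1 = (Module.finrank ℤ (AK K e) : ℕ∞)

/-- all the curves `E_{M ∏_{i ∈ T} d_i}` over `ℚ`, for the factors `E_M` of the product, have finitely
many rational points and no element of order two in `Ш`; the numbers are in the class up to squares -/
def Good {ι : Type} {n : ℕ} (d : Fin n → ℤ) (e : ι → Bool × ℤ) : Prop :=
  ∀ i, ∀ T : Finset (Fin n), ∃ D : ℕ, Adm D ∧ RankZeroShaTwo (e i).1 D ∧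
    UpToSq ((e i).2 * ∏ t ∈ T, d t) D

/-- the twist by `D` of the product -/
def twist {ι : Type} (e : ι → Bool × ℤ) (D : ℤ) : ι → Bool × ℤ := fun i => ((e i).1, (e i).2 * D)

/-- different factors are not isomorphic over `ℚ(√d_1, …, √d_n)` -/
def Different {ι : Type} {n : ℕ} (d : Fin n → ℤ) (e : ι → Bool × ℤ) : Prop := ∀ i j, e i ≠ e j →
  (e i).1 ≠ (e j).1 ∨ ∀ T : Finset (Fin n), ¬ IsSquare ((e i).2 * (e j).2 * ∏ t ∈ T, d t)

/-- the number of the different factors -/
noncomputable def factors {ι : Type} (e : ι → Bool × ℤ) : ℕ := (Set.range e).ncard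

/-- the proportion `(1 - 1/2) (1 - 1/8) (1 - 1/32) ⋯` -/
noncomputable def c : ℝ := ∏' i : ℕ, (1 - (1 / 2 : ℝ) ^ (2 * i + 1))

open Classical in
/-- the number of the `D ≤ X` in the class with the property `P` -/
noncomputable def count (P : ℕ → Prop) (X : ℕ) : ℕ :=
  ((Finset.Icc 1 X).filter fun D : ℕ => Adm D ∧ P D).card

section proof

open Pool.Agent.R494.AV
open Pool.Agent.R426.QB (Ac8)

lemma adm_iff (D : ℕ) : Adm D ↔ Ac8 D := by
  constructor
  · rintro ⟨h1, h2, h3⟩
    exact ⟨⟨h1, fun p hp => ⟨Nat.prime_of_mem_primeFactors hp,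
      h3 p (Nat.prime_of_mem_primeFactors hp) (Nat.dvd_of_mem_primeFactors hp)⟩⟩, h2⟩
  · rintro ⟨⟨h1, h2⟩, h3⟩
    exact ⟨h1, h3, fun p hp hd => (h2 p (hp.mem_primeFactors hd h1.ne_zero)).2⟩

lemma admSq_iff (z : ℤ) : AdmSq z ↔ AdS z := by
  unfold AdmSq AdS
  simp only [adm_iff]
  rfl

lemma rz_iff (c : Bool) {D : ℕ} (h : Adm D) :
    RankZeroShaTwo c D ↔ Pool.Agent.Y703.CQ.Gd (Fc c) D.primeFactors := by
  cases c
  · have h1 := rz14 ((adm_iff D).1 h)
    have e : E false D = E14 D := by
      unfold E E14 A B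
      simp
    unfold RankZeroShaTwo
    rw [e]
    exact h1
  · have h1 := rz49 ((adm_iff D).1 h)
    have e : E true D = E49 D := by
      unfold E E49
      simp
    unfold RankZeroShaTwo
    rw [e]
    exact h1

lemma good_iff {ι : Type} {n : ℕ} (d : Fin n → ℤ) (e : ι → Bool × ℤ) :
    Good d e ↔ ∀ i, Gx (e i).1 (e i).2 d := by
  refine forall_congr' fun i => forall_congr' fun T => exists_congr fun D => ?_
  constructor
  · rintro ⟨h1, h2, h3⟩
    exact ⟨⟨(adm_iff D).1 h1, (rz_iff _ h1).1 h2⟩, h3⟩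
  · rintro ⟨⟨h1, h2⟩, h3⟩
    have h1' := (adm_iff D).2 h1
    exact ⟨h1', (rz_iff _ h1').2 h2, h3⟩

lemma isL_iff {ι : Type} [Fintype ι] (K : Type) [Field K] [NumberField K] (e : ι → Bool × ℤ)
    (m : ℤ) (F : ℂ → ℂ) : IsL K e m F ↔ IsLP K (fun i => cA (e i).1 (e i).2)
      (fun i => cB (e i).1 (e i).2) (42 * (∏ i, (e i).2) * m) F := Iff.rfl

end proof

/-- **The rank conjecture for products of twists of `X_0(14)` and `X_0(49)`.** -/
theorem result :
    (∀ (n : ℕ) (d : Fin n → ℤ) (ι : Type) [Fintype ι] (e : ι → Bool × ℤ), Ind d → Good d e →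
      ∀ (K : Type) [Field K] [NumberField K], IsMultiquadratic d K →
        Module.finrank ℚ K = 2 ^ n ∧ BSDZero K e (∏ t, d t)) ∧
    (∀ (n : ℕ) (d : Fin n → ℤ) (ι : Type) [Fintype ι] (e : ι → Bool × ℤ), Ind d →
      (∀ t, AdmSq (d t)) → (∀ i, AdmSq (e i).2) → Different d e →
      Tendsto (fun X : ℕ => (count (fun D => Good d (twist e D)) X : ℝ) /
        (count (fun _ => True) X : ℝ)) atTop (𝓝 (c ^ (2 ^ n * factors e))) ∧
      ∃ (a : ℝ) (X₀ : ℕ), 0 < a ∧ ∀ X : ℕ, X₀ ≤ X →
        a * (X * (Real.log X) ^ (-(3 / 4) : ℝ)) ≤ (count (fun D => Good d (twist e D)) X : ℝ)) ∧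
    0.4194 < c ∧ c < 0.4195 := by
  classical
  have hc : c = Pool.Agent.Y703.CQ.c2 := rfl
  have hc1 := Pool.Agent.Y948.CQ.t_C2.2.2.2.1
  have hc2 := Pool.Agent.Y948.CQ.t_C2.2.2.2.2
  refine ⟨fun n d ι _ e hd hg K _ _ ⟨x, hx, hK⟩ => ⟨?_, ?_⟩, fun n d ι _ e hd ha he hdf => ?_,
    hc1, hc2⟩
  · have := Pool.Agent.Y73.QMQ1.gal_of hx hK
    rw [← IsGalois.card_aut_eq_finrank]
    exact Pool.Agent.Y73.QMQ1.card_gal hd hx hK
  · rw [good_iff] at hg
    have hf := fun i => Pool.Agent.R494.AV.field (e i).1 hd (hg i) K x hx hK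
    have hN : 42 * (∏ i, (e i).2) * (∏ t, d t) ≠ 0 := by
      refine mul_ne_zero (mul_ne_zero (by norm_num) (Finset.prod_ne_zero_iff.2 fun i _ =>
        (hg i).ne)) (Finset.prod_ne_zero_iff.2 fun t _ h0 => ?_)
      refine hd {t} (Finset.singleton_nonempty t) ?_
      rw [Finset.prod_singleton, h0]
      exact ⟨0, rfl⟩
    obtain ⟨F, hF, hF1⟩ := Pool.Agent.R494.AV.prodL (K := K)
      (a := fun i => Pool.Agent.R494.AV.cA (e i).1 (e i).2)
      (b := fun i => Pool.Agent.R494.AV.cB (e i).1 (e i).2) (D := fun _ => ∏ t, d t) hN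
      (fun i v hv => Pool.Agent.R494.AV.bad (e i).1 (mul_dvd_mul_right (mul_dvd_mul_left 42
        (Finset.dvd_prod_of_mem (fun i => (e i).2) (Finset.mem_univ i))) _) v hv)
      (fun i => (hf i).1)
    obtain ⟨h1, h2⟩ := Pool.Agent.R494.AV.rank_zero (K := K)
      (a := fun i => Pool.Agent.R494.AV.cA (e i).1 (e i).2)
      (b := fun i => Pool.Agent.R494.AV.cB (e i).1 (e i).2) fun i => (hf i).2
    have h2' : Module.finrank ℤ (AK K e) = 0 := h2
    refine ⟨h1, h2', ⟨F, hF⟩, fun G hG => ?_⟩
    have h3 : G = F := Pool.Agent.R494.AV.unique ((isL_iff K e _ G).1 hG) hF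
    rw [h2', h3]
    exact (hF.1.analyticAt 1).analyticOrderAt_eq_zero.2 hF1
  · have ha' := fun t => (admSq_iff _).1 (ha t)
    have he' := fun i => (admSq_iff _).1 (he i)
    have h := Pool.Agent.R494.AV.joint (d := d) (e := e) hd ha' he' hdf
    have e0 : factors e = (Finset.univ.image e).card := by
      unfold factors
      rw [← Set.ncard_coe_finset, Finset.coe_image, Finset.coe_univ, Set.image_univ]
    rw [← e0, ← hc] at h
    have e1 : ∀ X, count (fun D => Good d (twist e D)) X = ((Finset.Icc 1 X).filter fun D : ℕ =>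
        Pool.Agent.R426.QB.Ac8 D ∧ ∀ i, Pool.Agent.R494.AV.Gx (e i).1 ((e i).2 * D) d).card := by
      intro X
      unfold count
      refine congrArg Finset.card (Finset.ext fun D => ?_)
      rw [Finset.mem_filter, Finset.mem_filter, adm_iff]
      exact and_congr_right fun _ => and_congr_right fun _ => good_iff d (twist e D)
    have e2 : ∀ X, count (fun _ => True) X = ((Finset.Icc 1 X).filter fun D : ℕ =>
        Pool.Agent.R426.QB.Ac8 D).card := by
      intro X
      unfold count
      congr 1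
      ext D
      simp [adm_iff]
    have hlim : Tendsto (fun X : ℕ => (count (fun D => Good d (twist e D)) X : ℝ) /
        (count (fun _ => True) X : ℝ)) atTop (𝓝 (c ^ (2 ^ n * factors e))) := by
      refine h.congr fun X => ?_
      rw [e1, e2]
    refine ⟨hlim, ?_⟩
    obtain ⟨a, X₀, ha0, hlow⟩ := Pool.Agent.R494.AV.low
    have hpos : (0 : ℝ) < c ^ (2 ^ n * factors e) := pow_pos (by linarith) _
    have hev := hlim.eventually (lt_mem_nhds (half_lt_self hpos))
    obtain ⟨X₁, hX₁⟩ := eventually_atTop.1 hev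
    refine ⟨c ^ (2 ^ n * factors e) / 2 * a, max X₀ X₁, by positivity, fun X hX => ?_⟩
    have h1 := hlow X ((le_max_left _ _).trans hX)
    rw [← e2] at h1
    have h2 := (hX₁ X ((le_max_right _ _).trans hX)).le
    rcases (Nat.cast_nonneg (α := ℝ) (count (fun _ => True) X)).eq_or_lt with h0 | h0
    · rw [← h0, div_zero] at h2
      linarith
    · rw [le_div_iff₀ h0] at h2
      refine le_trans ?_ h2
      rw [mul_assoc]
      exact mul_le_mul_of_nonneg_left h1 (by positivity)

end Pool.Agent.Results.MP_1d384c_nt.ProductsOfTwists
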